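import Pool.Agent.helper96.S5.SpecR

/-!
# MP_0b485e_lc, row NCE
-/

set_option autoImplicit false

namespace S5

open PF

/-- parity of the number of elements of the complement below `z` -/
def NCE_par (T : ℕ → Bool) (z : ℕ) : Bool :=
  Nat.rec (motive := fun _ => Bool) false (fun y r => cond (T y) r (!r)) z

theorem NCE_par_succ (T : ℕ → Bool) (z : ℕ) :
    NCE_par T (z + 1) = cond (T z) (NCE_par T z) (!(NCE_par T z)) := rfl

theorem NCE_par_computable {T : ℕ → Bool} (hT : Computable T) : Computable (NCE_par T) := by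
  refine Computable.nat_rec (f := fun z : ℕ => z) (g := fun _ => false)
    (h := fun (_ : ℕ) (p : ℕ × Bool) => cond (T p.1) p.2 (!p.2)) Computable.id
    (Computable.const false) ?_
  refine Computable.cond (hT.comp (Computable.fst.comp Computable.snd))
    (Computable.snd.comp Computable.snd) ?_
  exact Primrec.not.to_comp.comp (Computable.snd.comp Computable.snd)

theorem NCE_next (T : ℕ → Bool) (h : ∀ B, ∃ z, B < z ∧ T z = false) (z : ℕ) (hz : T z = false) :
    ∃ z', z < z' ∧ T z' = false ∧ NCE_par T z' = !(NCE_par T z) := by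
  have hex : ∃ k, T (z + 1 + k) = false := by
    obtain ⟨z', h1, h2⟩ := h z
    exact ⟨z' - (z + 1), by rw [Nat.add_sub_cancel' h1]; exact h2⟩
  obtain ⟨k, hk, hmin⟩ : ∃ k, T (z + 1 + k) = false ∧ ∀ j, j < k → T (z + 1 + j) = true := by
    classical
    refine ⟨Nat.find hex, Nat.find_spec hex, fun j hj => ?_⟩
    have := Nat.find_min hex hj
    exact (Bool.not_eq_false _).mp this
  refine ⟨z + 1 + k, by omega, hk, ?_⟩
  have hind : ∀ j, j ≤ k → NCE_par T (z + 1 + j) = !(NCE_par T z) := by
    intro j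
    induction j with
    | zero =>
      intro _
      rw [Nat.add_zero, NCE_par_succ, hz]
      rfl
    | succ j ih =>
      intro hj
      rw [← Nat.add_assoc, NCE_par_succ, hmin j (by omega), ih (by omega)]
      rfl
  exact hind k le_rfl

theorem NCE_row : NCE_stmt := by
  intro E hE hP hcomp
  obtain ⟨T, hT, hTE⟩ := (R3_iff _).1 hcomp
  have hTf : ∀ z, z ∉ E ↔ T z = false := by
    intro z
    rw [hTE z]
    exact Bool.not_eq_true _ |>.to_iff
  have hinf : ∀ B, ∃ z, B < z ∧ T z = false := by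
    intro B
    obtain ⟨z, hz, hB⟩ := hE.exists_gt B
    exact ⟨z, hB, (hTf z).1 hz⟩
  have hPc : ComputablePred fun z => NCE_par T z = true :=
    (R3_iff _).2 ⟨NCE_par T, NCE_par_computable hT, fun _ => Iff.rfl⟩
  rcases hP _ hPc with h | h
  · obtain ⟨B, hB⟩ := h.bddAbove
    obtain ⟨z, hz, hzT⟩ := hinf B
    by_cases h1 : NCE_par T z = true
    · obtain ⟨z', h2, h3, h4⟩ := NCE_next T hinf z hzT
      have h5 : z' ≤ B := hB ⟨(hTf z').2 h3, by
        intro h6
        rw [h4, h1] at h6
        exact absurd h6 (by simp)⟩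
      omega
    · have h5 : z ≤ B := hB ⟨(hTf z).2 hzT, h1⟩
      omega
  · obtain ⟨B, hB⟩ := h.bddAbove
    obtain ⟨z, hz, hzT⟩ := hinf B
    by_cases h1 : NCE_par T z = true
    · have h5 : z ≤ B := hB ⟨(hTf z).2 hzT, h1⟩
      omega
    · obtain ⟨z', h2, h3, h4⟩ := NCE_next T hinf z hzT
      have h5 : z' ≤ B := hB ⟨(hTf z').2 h3, by
        rw [h4, (Bool.not_eq_true _).mp h1]
        rfl⟩
      omega

end S5
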