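import Pool.Agent.helper96.S5.SpecL

/-!
# MP_0b485e_lc, row SNI
-/

set_option autoImplicit false

namespace S5

open PF

theorem SNI_row : SNI_stmt := by
  classical
  intro L _ _ R rules s gr M c p hrules hgr hBd
  obtain ⟨hd0, hEC, hRu, hTot, hAt⟩ := hBd
  have hdom : ∀ a, a ≤ M → Dm p (c (2 * a)) (c (2 * a + 1)) := fun a ha =>
    hd0 a (List.mem_range.2 (Nat.lt_succ_of_le ha))
  let ρ : ℕ → {x : L × L // Dm p x.1 x.2} → {x : L × L // Dm p x.1 x.2} → Prop := fun r x y =>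
    ¬ EC p (10 + 2 * r) x.1.1 x.1.2 y.1.1 y.1.2
  let c' : ℕ → {x : L × L // Dm p x.1 x.2} := fun a =>
    if h : a ≤ M then ⟨(c (2 * a), c (2 * a + 1)), hdom a h⟩
    else ⟨(c (2 * 0), c (2 * 0 + 1)), hdom 0 (Nat.zero_le _)⟩
  have hc' : ∀ a, a ≤ M → (c' a).1 = (c (2 * a), c (2 * a + 1)) := by
    intro a ha
    simp only [c', dif_pos ha]
  refine ⟨{x : L × L // Dm p x.1 x.2}, ρ, c', ?_, ?_, ?_⟩
  · intro h hh v hv
    let v' : ℕ → L := fun i => if i % 2 = 0 then (v (i / 2)).1.1 else (v (i / 2)).1.2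
    have hv0 : ∀ i, v' (2 * i) = (v i).1.1 := by
      intro i
      have h1 : 2 * i % 2 = 0 := by omega
      have h2 : 2 * i / 2 = i := by omega
      simp only [v', h1, h2, if_true]
    have hv1 : ∀ i, v' (2 * i + 1) = (v i).1.2 := by
      intro i
      have h1 : ¬ (2 * i + 1) % 2 = 0 := by omega
      have h2 : (2 * i + 1) / 2 = i := by omega
      simp only [v', h1, h2, if_false]
    have hr := hRu h hh v' (by
      intro i _
      rw [hv0, hv1]
      exact (v i).2)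
    simp only [hv0, hv1] at hr
    rcases hr with ⟨a, ha, hne⟩ | ⟨a, ha, hne⟩
    · exfalso
      have h1 := hEC a.1 (List.mem_range.2 ((hrules h hh).1 a ha)) _ _ _ _ (v a.2.1).2 (v a.2.2).2
      rcases h1 with h1 | h1
      · exact hne h1
      · exact hv a ha h1
    · exact ⟨a, Option.mem_toList.1 ha, hne⟩
  · intro x
    obtain ⟨y, y', hy, hn⟩ := hTot x.1.1 x.1.2 x.2
    exact ⟨⟨(y, y'), hy⟩, hn⟩
  · intro a ha
    obtain ⟨h1, h2, h3⟩ := hgr a ha
    have h4 := hAt a.1 (List.mem_range.2 h1) (c (2 * a.2.1)) (c (2 * a.2.1 + 1)) (c (2 * a.2.2))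
      (c (2 * a.2.2 + 1)) ⟨a, ha, rfl, ⟨rfl, rfl⟩, rfl, rfl⟩
    change ¬ EC p (10 + 2 * a.1) (c' a.2.1).1.1 (c' a.2.1).1.2 (c' a.2.2).1.1 (c' a.2.2).1.2
    rw [hc' _ h2, hc' _ h3]
    exact h4

end S5
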